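import Mathlib

namespace Pool.Agent.Helper465CycSat

open Finset

/-- `H` contains a cycle with `k` vertices (meant for `k ≥ 3`). -/
def HasCycle {V : Type*} (H : SimpleGraph V) (k : ℕ) : Prop :=
  ∃ c : ZMod k → V, Function.Injective c ∧ ∀ i, H.Adj (c i) (c (i + 1))

/-- `H` is `C_k`-saturated relative to `G`. -/
def IsCycleSaturated {V : Type*} (G H : SimpleGraph V) (k : ℕ) : Prop :=
  H ≤ G ∧ ¬ HasCycle H k ∧
    ∀ u v, G.Adj u v → ¬ H.Adj u v → HasCycle (H ⊔ SimpleGraph.edge u v) k

/-- The saturation number `sat(G, C_k)`. -/
noncomputable def satNum {V : Type*} (G : SimpleGraph V) (k : ℕ) : ℕ :=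
  sInf {m | ∃ H : SimpleGraph V, IsCycleSaturated G H k ∧ H.edgeSet.ncard = m}

/-- Adjacency of index `i` on the left with index `j` on the right. -/
def adj (r l i j : ℕ) : Prop :=
  (i < l ∧ j < r) ∨ (r ≤ i ∧ i < l ∧ r ≤ j ∧ j < l) ∨ (l ≤ i ∧ j = r) ∨ (l ≤ j ∧ i = 0)

/-- The graph. -/
def gr (r l n1 n2 : ℕ) : SimpleGraph (Fin n1 ⊕ Fin n2) where
  Adj u v := match u, v with
    | .inl i, .inr j => adj r l i j
    | .inr j, .inl i => adj r l i j
    | _, _ => False
  symm := ⟨by
    intro u v h
    rcases u with i | j <;> rcases v with i' | j' <;> exact h⟩
  loopless := ⟨by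
    intro u h
    rcases u with i | j <;> exact h⟩

theorem gr_lr {r l n1 n2 : ℕ} (i : Fin n1) (j : Fin n2) :
    (gr r l n1 n2).Adj (.inl i) (.inr j) ↔ adj r l i j := Iff.rfl

theorem gr_rl {r l n1 n2 : ℕ} (i : Fin n1) (j : Fin n2) :
    (gr r l n1 n2).Adj (.inr j) (.inl i) ↔ adj r l i j := Iff.rfl

theorem gr_ll {r l n1 n2 : ℕ} (i i' : Fin n1) :
    ¬ (gr r l n1 n2).Adj (.inl i) (.inl i') := fun h => h

theorem gr_rr {r l n1 n2 : ℕ} (j j' : Fin n2) :
    ¬ (gr r l n1 n2).Adj (.inr j) (.inr j') := fun h => h

/-- Building a cycle of length `2 l` from two index sequences. -/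
theorem cycle_of_seq {n1 n2 l : ℕ} (hl : 1 ≤ l) (G : SimpleGraph (Fin n1 ⊕ Fin n2))
    (α β : ℕ → ℕ) (hα : ∀ i < l, α i < n1) (hβ : ∀ i < l, β i < n2)
    (iα : ∀ i < l, ∀ j < l, α i = α j → i = j) (iβ : ∀ i < l, ∀ j < l, β i = β j → i = j)
    (h1 : ∀ i (h : i < l), G.Adj (.inl ⟨α i, hα i h⟩) (.inr ⟨β i, hβ i h⟩))
    (h2 : ∀ i (h : i + 1 < l), G.Adj (.inl ⟨α (i + 1), hα _ h⟩) (.inr ⟨β i, hβ i (by omega)⟩))
    (h3 : G.Adj (.inl ⟨α 0, hα 0 (by omega)⟩) (.inr ⟨β (l - 1), hβ _ (by omega)⟩)) :
    HasCycle G (2 * l) := by
  have : NeZero (2 * l) := ⟨by omega⟩
  have hv : ∀ z : ZMod (2 * l), z.val / 2 < l := fun z => by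
    have := z.val_lt; omega
  refine ⟨fun z => if z.val % 2 = 0 then .inl ⟨α (z.val / 2), hα _ (hv z)⟩
    else .inr ⟨β (z.val / 2), hβ _ (hv z)⟩, ?_, ?_⟩
  · intro z w hzw
    have hz := hv z
    have hw := hv w
    simp only at hzw
    apply ZMod.val_injective
    split_ifs at hzw with a b b
    · have := iα _ hz _ hw (by simpa using hzw)
      omega
    · have := iβ _ hz _ hw (by simpa using hzw)
      omega
  · intro z
    have hz := z.val_lt
    have hone : (1 : ZMod (2 * l)).val = 1 := by
      rw [ZMod.val_one_eq_one_mod]
      exact Nat.mod_eq_of_lt (by omega)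
    have hadd : (z + 1).val = (z.val + 1) % (2 * l) := by
      rw [ZMod.val_add, hone]
    by_cases hlast : z.val = 2 * l - 1
    · -- wrap around
      have hz1 : (z + 1).val = 0 := by
        rw [hadd, hlast, Nat.sub_add_cancel (by omega), Nat.mod_self]
      have e1 : ¬ z.val % 2 = 0 := by omega
      have e2 : z.val / 2 = l - 1 := by omega
      simp only [hz1, if_neg e1, e2, Nat.zero_mod, if_true, Nat.zero_div]
      exact h3.symm
    · have hz1 : (z + 1).val = z.val + 1 := by
        rw [hadd]
        exact Nat.mod_eq_of_lt (by omega)
      by_cases he : z.val % 2 = 0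
      · have e1 : ¬ (z.val + 1) % 2 = 0 := by omega
        have e2 : (z.val + 1) / 2 = z.val / 2 := by omega
        simp only [hz1, if_pos he, if_neg e1, e2]
        exact h1 _ (hv z)
      · have e1 : (z.val + 1) % 2 = 0 := by omega
        have e2 : (z.val + 1) / 2 = z.val / 2 + 1 := by omega
        simp only [hz1, if_neg he, if_pos e1, e2]
        exact (h2 (z.val / 2) (by omega)).symm

theorem cycle_of_idx {r l n1 n2 : ℕ} (hl : 1 ≤ l) (α β : ℕ → ℕ) (u : Fin n1) (v : Fin n2)
    (hα : ∀ i < l, α i < n1) (hβ : ∀ i < l, β i < n2)
    (iα : ∀ i < l, ∀ j < l, α i = α j → i = j) (iβ : ∀ i < l, ∀ j < l, β i = β j → i = j)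
    (h1 : ∀ i < l, adj r l (α i) (β i)) (h2 : ∀ i, i + 1 < l → adj r l (α (i + 1)) (β i))
    (hu : α 0 = u) (hv : β (l - 1) = v) :
    HasCycle (gr r l n1 n2 ⊔ SimpleGraph.edge (.inl u) (.inr v)) (2 * l) := by
  apply cycle_of_seq hl _ α β hα hβ iα iβ
  · intro i h
    exact Or.inl (h1 i h)
  · intro i h
    exact Or.inl (h2 i h)
  · right
    rw [SimpleGraph.edge_adj]
    have e1 : (⟨α 0, hα 0 (by omega)⟩ : Fin n1) = u := Fin.ext hu
    have e2 : (⟨β (l - 1), hβ _ (by omega)⟩ : Fin n2) = v := Fin.ext hv
    rw [e1, e2]
    exact ⟨Or.inl ⟨rfl, rfl⟩, by simp⟩

set_option maxHeartbeats 4000000 in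
theorem saturated_pair {r s n1 n2 : ℕ} (hr : 2 ≤ r) (hs : 2 ≤ s) (h1 : r + s ≤ n1)
    (h2 : r + s ≤ n2) (u : Fin n1) (v : Fin n2) (h : ¬ adj r (r + s) u v) :
    HasCycle (gr r (r + s) n1 n2 ⊔ SimpleGraph.edge (.inl u) (.inr v)) (2 * (r + s)) := by
  obtain ⟨u, hu⟩ := u
  obtain ⟨v, hv⟩ := v
  simp only [adj] at h
  by_cases c1 : u < r + s
  · by_cases c2 : v < r + s
    · -- case 1
      have hu1 : u < r := by omega
      have hv1 : r ≤ v := by omega
      apply cycle_of_idx (by omega)
        (fun i => if i = 0 then u else if i = u then 0 else i)
        (fun i => if i = r + s - 1 then v else if i = v then r + s - 1 else i)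
      · intro i hi; split_ifs <;> first | contradiction | omega
      · intro i hi; split_ifs <;> first | contradiction | omega
      · intro i hi j hj hij; split_ifs at hij <;> first | contradiction | omega
      · intro i hi j hj hij; split_ifs at hij <;> first | contradiction | omega
      · intro i hi; simp only [adj]; split_ifs <;> first | contradiction | omega
      · intro i hi; simp only [adj]; split_ifs <;> first | contradiction | omega
      · simp
      · simp
    · by_cases c3 : r ≤ u
      · -- case 3a
        apply cycle_of_idx (by omega)
          (fun i => if i < s then (if i = 0 then u else if r + i = u then r else r + i)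
            else r + s - 1 - i)
          (fun i => if i + 1 < s then r + i else if i + 1 < r + s then i + 1 - s else v)
        · intro i hi; split_ifs <;> first | contradiction | omega
        · intro i hi; split_ifs <;> first | contradiction | omega
        · intro i hi j hj hij; split_ifs at hij <;> first | contradiction | omega
        · intro i hi j hj hij; split_ifs at hij <;> first | contradiction | omega
        · intro i hi; simp only [adj]; split_ifs <;> first | contradiction | omega
        · intro i hi; simp only [adj]; split_ifs <;> first | contradiction | omega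
        · dsimp only; split_ifs <;> first | contradiction | omega
        · dsimp only; split_ifs <;> first | contradiction | omega
      · -- case 3b
        have hu1 : 1 ≤ u := by omega
        apply cycle_of_idx (by omega)
          (fun i => if i + 1 < r then (if i = 0 then u else if i + 1 = u then 1 else i + 1)
            else if i + 1 < r + s then i + 1 else 0)
          (fun i => if i + 1 < r then i else if i + 2 < r + s then i + 1
            else if i + 2 = r + s then r - 1 else v)
        · intro i hi; split_ifs <;> first | contradiction | omega
        · intro i hi; split_ifs <;> first | contradiction | omega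
        · intro i hi j hj hij; split_ifs at hij <;> first | contradiction | omega
        · intro i hi j hj hij; split_ifs at hij <;> first | contradiction | omega
        · intro i hi; simp only [adj]; split_ifs <;> first | contradiction | omega
        · intro i hi; simp only [adj]; split_ifs <;> first | contradiction | omega
        · dsimp only; split_ifs <;> first | contradiction | omega
        · dsimp only; split_ifs <;> first | contradiction | omega
  · by_cases c2 : v < r
    · -- case 2a
      apply cycle_of_idx (by omega)
        (fun i => if i = 0 then u else if i < s + 1 then r + i - 1 else i - s - 1)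
        (fun i => if i < s then r + i else if i = r + s - 1 then v
          else if i - s = v then r - 1 else i - s)
      · intro i hi; split_ifs <;> first | contradiction | omega
      · intro i hi; split_ifs <;> first | contradiction | omega
      · intro i hi j hj hij; split_ifs at hij <;> first | contradiction | omega
      · intro i hi j hj hij; split_ifs at hij <;> first | contradiction | omega
      · intro i hi; simp only [adj]; split_ifs <;> first | contradiction | omega
      · intro i hi; simp only [adj]; split_ifs <;> first | contradiction | omega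
      · dsimp only; split_ifs <;> first | contradiction | omega
      · dsimp only; split_ifs <;> first | contradiction | omega
    · by_cases c3 : v < r + s
      · -- case 2b
        have hv1 : r < v := by omega
        apply cycle_of_idx (by omega)
          (fun i => if i = 0 then u else if i = 1 then r else if i < r + 1 then i - 2 else i)
          (fun i => if i = 0 then r else if i < r + 1 then i - 1
            else if i = r + s - 1 then v else if i = v then r + s - 1 else i)
        · intro i hi; split_ifs <;> first | contradiction | omega
        · intro i hi; split_ifs <;> first | contradiction | omega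
        · intro i hi j hj hij; split_ifs at hij <;> first | contradiction | omega
        · intro i hi j hj hij; split_ifs at hij <;> first | contradiction | omega
        · intro i hi; simp only [adj]; split_ifs <;> first | contradiction | omega
        · intro i hi; simp only [adj]; split_ifs <;> first | contradiction | omega
        · dsimp only; split_ifs <;> first | contradiction | omega
        · dsimp only; split_ifs <;> first | contradiction | omega
      · -- case 4
        apply cycle_of_idx (by omega)
          (fun i => if i = 0 then u else if i < s + 1 then r + i - 1 else r + s - 1 - i)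
          (fun i => if i < s then r + i else if i + 1 < r + s then i - s else v)
        · intro i hi; split_ifs <;> first | contradiction | omega
        · intro i hi; split_ifs <;> first | contradiction | omega
        · intro i hi j hj hij; split_ifs at hij <;> first | contradiction | omega
        · intro i hi j hj hij; split_ifs at hij <;> first | contradiction | omega
        · intro i hi; simp only [adj]; split_ifs <;> first | contradiction | omega
        · intro i hi; simp only [adj]; split_ifs <;> first | contradiction | omega
        · dsimp only; split_ifs <;> first | contradiction | omega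
        · dsimp only; split_ifs <;> first | contradiction | omega

end Pool.Agent.Helper465CycSat
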