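import Pool.Agent.Helper465_CycSat.Core

namespace Pool.Agent.Helper465CycSat

open Finset

/-- Index of a vertex inside its part. -/
def idx {n1 n2 : ℕ} : Fin n1 ⊕ Fin n2 → ℕ
  | .inl i => i
  | .inr j => j

theorem no_cycle {r s l n1 n2 : ℕ} (hl : l = r + s) (hr : 1 ≤ r) (hs : 1 ≤ s) :
    ¬ HasCycle (gr r l n1 n2) (2 * l) := by
  rintro ⟨c, hc, hadj⟩
  have : NeZero (2 * l) := ⟨by omega⟩
  have hback : ∀ z, (gr r l n1 n2).Adj (c z) (c (z - 1)) := by
    intro z
    have := (hadj (z - 1)).symm
    rwa [sub_add_cancel] at this
  have hne : ∀ z : ZMod (2 * l), z + 1 ≠ z - 1 := by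
    intro z h
    have h2 : ((2 : ℕ) : ZMod (2 * l)) = 0 := by
      have : (z + 1) - (z - 1) = 0 := sub_eq_zero.mpr h
      have e : (z + 1) - (z - 1) = ((2 : ℕ) : ZMod (2 * l)) := by push_cast; ring
      rw [← e, this]
    rw [ZMod.natCast_eq_zero_iff] at h2
    have := Nat.le_of_dvd (by norm_num) h2
    omega
  -- (b) all vertices lie in the core
  have hcore : ∀ z, idx (c z) < l := by
    intro z
    by_contra hlt
    push Not at hlt
    have a1 := hadj z
    have a2 := hback z
    have hcne : c (z + 1) ≠ c (z - 1) := fun h => hne z (hc h)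
    rcases hz : c z with i | j
    · rw [hz] at a1 a2 hlt
      simp only [idx] at hlt
      rcases h1 : c (z + 1) with i1 | j1
      · rw [h1] at a1; exact a1
      · rcases h2 : c (z - 1) with i2 | j2
        · rw [h2] at a2; exact a2
        · rw [h1, gr_lr] at a1
          rw [h2, gr_lr] at a2
          simp only [adj] at a1 a2
          apply hcne
          rw [h1, h2]
          congr 1
          apply Fin.ext
          omega
    · rw [hz] at a1 a2 hlt
      simp only [idx] at hlt
      rcases h1 : c (z + 1) with i1 | j1
      · rcases h2 : c (z - 1) with i2 | j2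
        · rw [h1, gr_rl] at a1
          rw [h2, gr_rl] at a2
          simp only [adj] at a1 a2
          apply hcne
          rw [h1, h2]
          congr 1
          apply Fin.ext
          omega
        · rw [h2] at a2; exact a2
      · rw [h1] at a1; exact a1
  -- sides alternate
  have hside : ∀ z, (c (z + 1)).isLeft = !(c z).isLeft := by
    intro z
    have a1 := hadj z
    rcases h0 : c z with i | j <;> rcases h1 : c (z + 1) with i1 | j1 <;> rw [h0, h1] at a1
    · exact absurd a1 (gr_ll _ _)
    · rfl
    · rfl
    · exact absurd a1 (gr_rr _ _)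
  let L : Finset (ZMod (2 * l)) := univ.filter (fun z => (c z).isLeft = true)
  let R : Finset (ZMod (2 * l)) := univ.filter (fun z => (c z).isLeft = false)
  have hLR : L.card + R.card = 2 * l := by
    have h1 : L ∪ R = univ := by
      ext z
      simp only [L, R, mem_union, mem_filter, mem_univ, true_and, iff_true]
      cases (c z).isLeft <;> simp
    have h2 : Disjoint L R := by
      rw [Finset.disjoint_left]
      intro z hz hz'
      simp only [L, R, mem_filter, mem_univ, true_and] at hz hz'
      rw [hz] at hz'
      exact absurd hz' (by simp)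
    rw [← Finset.card_union_of_disjoint h2, h1, Finset.card_univ, ZMod.card]
  have hinj1 : Function.Injective (fun z : ZMod (2 * l) => z + 1) := fun a b h =>
    add_right_cancel h
  have hinjm : Function.Injective (fun z : ZMod (2 * l) => z - 1) := fun a b h =>
    sub_left_injective h
  have hL1 : L.card ≤ R.card := by
    rw [← Finset.card_image_of_injective L hinj1]
    apply Finset.card_le_card
    intro w hw
    obtain ⟨z, hz, rfl⟩ := Finset.mem_image.mp hw
    simp only [L, R, mem_filter, mem_univ, true_and] at hz ⊢
    rw [hside, hz]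
    rfl
  have hR1 : R.card ≤ L.card := by
    rw [← Finset.card_image_of_injective R hinj1]
    apply Finset.card_le_card
    intro w hw
    obtain ⟨z, hz, rfl⟩ := Finset.mem_image.mp hw
    simp only [L, R, mem_filter, mem_univ, true_and] at hz ⊢
    rw [hside, hz]
    rfl
  have hLc : L.card = l := by omega
  have hRc : R.card = l := by omega
  -- the index maps are bijections onto `range l`
  have injL : Set.InjOn (fun z => idx (c z)) (L : Set (ZMod (2 * l))) := by
    intro z hz w hw h
    simp only [L, coe_filter, mem_univ, true_and, Set.mem_setOf_eq] at hz hw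
    apply hc
    rcases h0 : c z with i | j
    · rcases h1 : c w with i1 | j1
      · simp only [h0, h1, idx] at h
        rw [Fin.ext h]
      · rw [h1] at hw; simp at hw
    · rw [h0] at hz; simp at hz
  have injR : Set.InjOn (fun z => idx (c z)) (R : Set (ZMod (2 * l))) := by
    intro z hz w hw h
    simp only [R, coe_filter, mem_univ, true_and, Set.mem_setOf_eq] at hz hw
    apply hc
    rcases h0 : c z with i | j
    · rw [h0] at hz; simp at hz
    · rcases h1 : c w with i1 | j1
      · rw [h1] at hw; simp at hw
      · simp only [h0, h1, idx] at h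
        rw [Fin.ext h]
  have imL : L.image (fun z => idx (c z)) = range l := by
    apply Finset.eq_of_subset_of_card_le
    · intro x hx
      obtain ⟨z, _, rfl⟩ := Finset.mem_image.mp hx
      exact mem_range.mpr (hcore z)
    · rw [Finset.card_image_of_injOn injL, hLc, card_range]
  have imR : R.image (fun z => idx (c z)) = range l := by
    apply Finset.eq_of_subset_of_card_le
    · intro x hx
      obtain ⟨z, _, rfl⟩ := Finset.mem_image.mp hx
      exact mem_range.mpr (hcore z)
    · rw [Finset.card_image_of_injOn injR, hRc, card_range]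
  let A1 : Finset (ZMod (2 * l)) := L.filter (fun z => idx (c z) < r)
  let B1 : Finset (ZMod (2 * l)) := R.filter (fun z => idx (c z) < r)
  have cA1 : A1.card = r := by
    have h1 : A1.image (fun z => idx (c z)) = range r := by
      ext x
      simp only [A1, mem_image, mem_filter, mem_range]
      constructor
      · rintro ⟨z, ⟨_, hz⟩, rfl⟩; exact hz
      · intro hx
        have : x ∈ L.image (fun z => idx (c z)) := by
          rw [imL, mem_range]; omega
        obtain ⟨z, hz, rfl⟩ := Finset.mem_image.mp this
        exact ⟨z, ⟨hz, hx⟩, rfl⟩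
    have h2 := Finset.card_image_of_injOn (s := A1) (f := fun z => idx (c z))
      (injL.mono (by intro z hz; exact Finset.mem_coe.mpr (Finset.mem_of_mem_filter z hz)))
    rw [← h2, h1, card_range]
  have cB1 : B1.card = r := by
    have h1 : B1.image (fun z => idx (c z)) = range r := by
      ext x
      simp only [B1, mem_image, mem_filter, mem_range]
      constructor
      · rintro ⟨z, ⟨_, hz⟩, rfl⟩; exact hz
      · intro hx
        have : x ∈ R.image (fun z => idx (c z)) := by
          rw [imR, mem_range]; omega
        obtain ⟨z, hz, rfl⟩ := Finset.mem_image.mp this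
        exact ⟨z, ⟨hz, hx⟩, rfl⟩
    have h2 := Finset.card_image_of_injOn (s := B1) (f := fun z => idx (c z))
      (injR.mono (by intro z hz; exact Finset.mem_coe.mpr (Finset.mem_of_mem_filter z hz)))
    rw [← h2, h1, card_range]
  -- a neighbour on the cycle of an `A1` vertex is a `B1` vertex
  have nb : ∀ z w, z ∈ A1 → (gr r l n1 n2).Adj (c z) (c w) → w ∈ B1 := by
    intro z w hz ha
    simp only [A1, L, mem_filter, mem_univ, true_and] at hz
    simp only [B1, R, mem_filter, mem_univ, true_and]
    have hw := hcore w
    rcases h0 : c z with i | j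
    · rcases h1 : c w with i1 | j1
      · rw [h0, h1] at ha; exact absurd ha (gr_ll _ _)
      · rw [h0, h1, gr_lr] at ha
        rw [h1] at hw
        simp only [h0, idx] at hz
        simp only [adj] at ha
        simp only [idx] at hw ⊢
        refine ⟨rfl, ?_⟩
        omega
    · rw [h0] at hz; simp at hz
  have im1 : A1.image (fun z => z + 1) = B1 := by
    apply Finset.eq_of_subset_of_card_le
    · intro w hw
      obtain ⟨z, hz, rfl⟩ := Finset.mem_image.mp hw
      exact nb z (z + 1) hz (hadj z)
    · rw [Finset.card_image_of_injective A1 hinj1, cA1, cB1]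
  have im2 : A1.image (fun z => z - 1) = B1 := by
    apply Finset.eq_of_subset_of_card_le
    · intro w hw
      obtain ⟨z, hz, rfl⟩ := Finset.mem_image.mp hw
      exact nb z (z - 1) hz (hback z)
    · rw [Finset.card_image_of_injective A1 hinjm, cA1, cB1]
  have closed : ∀ z, z ∈ A1 ∪ B1 → z + 1 ∈ A1 ∪ B1 := by
    intro z hz
    rcases Finset.mem_union.mp hz with hz | hz
    · apply Finset.mem_union_right
      rw [← im1]
      exact Finset.mem_image_of_mem _ hz
    · apply Finset.mem_union_left
      rw [← im2] at hz
      obtain ⟨w, hw, rfl⟩ := Finset.mem_image.mp hz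
      simpa using hw
  have hA1ne : A1.Nonempty := by
    rw [← Finset.card_pos, cA1]; omega
  obtain ⟨z0, hz0⟩ := hA1ne
  have closedN : ∀ n : ℕ, z0 + (n : ZMod (2 * l)) ∈ A1 ∪ B1 := by
    intro n
    induction n with
    | zero => simpa using Finset.mem_union_left _ hz0
    | succ n ih =>
      have := closed _ ih
      rw [add_assoc] at this
      push_cast
      exact this
  have all : A1 ∪ B1 = univ := by
    apply Finset.eq_univ_of_forall
    intro w
    have := closedN (w - z0).val
    rw [ZMod.natCast_zmod_val] at this
    simpa using this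
  have hcard := Finset.card_union_le A1 B1
  rw [all, Finset.card_univ, ZMod.card, cA1, cB1] at hcard
  omega

/-- The number of edges. -/
theorem edges_le {r s n1 n2 : ℕ} (h1 : r + s ≤ n1) (h2 : r + s ≤ n2) (hs : 1 ≤ s) :
    (gr r (r + s) n1 n2).edgeSet.ncard ≤
      r * (r + s) + s * s + (n1 - (r + s)) + (n2 - (r + s)) := by
  classical
  -- pairs
  let P : Finset (ℕ × ℕ) := (range (r + s) ×ˢ range r) ∪
    ((Ico r (r + s)) ×ˢ (Ico r (r + s))) ∪ (Ico (r + s) n1 ×ˢ {r}) ∪ ({0} ×ˢ Ico (r + s) n2)
  have hP : P.card ≤ r * (r + s) + s * s + (n1 - (r + s)) + (n2 - (r + s)) := by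
    refine (Finset.card_union_le _ _).trans ?_
    refine (Nat.add_le_add_right (Finset.card_union_le _ _) _).trans ?_
    refine (Nat.add_le_add_right (Nat.add_le_add_right (Finset.card_union_le _ _) _) _).trans ?_
    simp only [card_product, card_range, Nat.card_Ico, card_singleton, mul_one, one_mul]
    rw [Nat.add_sub_cancel_left, Nat.mul_comm (r + s) r]
  have hr0 : r < n2 := by omega
  -- the edges are images of pairs
  let f : ℕ × ℕ → Sym2 (Fin n1 ⊕ Fin n2) := fun p =>
    if h : p.1 < n1 ∧ p.2 < n2 then s(.inl ⟨p.1, h.1⟩, .inr ⟨p.2, h.2⟩)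
    else s(.inr ⟨r, hr0⟩, .inr ⟨r, hr0⟩)
  have hsub : (gr r (r + s) n1 n2).edgeSet ⊆ ((P.image f : Finset _) : Set _) := by
    intro e he
    induction e using Sym2.ind with
    | _ u v =>
      rw [SimpleGraph.mem_edgeSet] at he
      have key : ∀ (i : Fin n1) (j : Fin n2), adj r (r + s) i j →
          s(Sum.inl i, Sum.inr j) ∈ ((P.image f : Finset _) : Set (Sym2 (Fin n1 ⊕ Fin n2))) := by
        intro i j hij
        rw [Finset.mem_coe, Finset.mem_image]
        refine ⟨(i.1, j.1), ?_, ?_⟩
        · simp only [P, mem_union, mem_product, mem_range, mem_Ico, mem_singleton]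
          have hi := i.2
          have hj := j.2
          simp only [adj] at hij
          omega
        · simp only [f]
          rw [dif_pos ⟨i.2, j.2⟩]
      rcases u with i | j <;> rcases v with i' | j'
      · exact absurd he (gr_ll _ _)
      · exact key i j' he
      · rw [Sym2.eq_swap]
        exact key i' j he
      · exact absurd he (gr_rr _ _)
  calc (gr r (r + s) n1 n2).edgeSet.ncard ≤ ((P.image f : Finset _) : Set _).ncard :=
        Set.ncard_le_ncard hsub (Finset.finite_toSet _)
    _ = (P.image f).card := Set.ncard_coe_finset _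
    _ ≤ P.card := Finset.card_image_le
    _ ≤ _ := hP

theorem saturated {r s n1 n2 : ℕ} (hr : 2 ≤ r) (hs : 2 ≤ s) (h1 : r + s ≤ n1)
    (h2 : r + s ≤ n2) :
    IsCycleSaturated (completeBipartiteGraph (Fin n1) (Fin n2)) (gr r (r + s) n1 n2)
      (2 * (r + s)) := by
  refine ⟨?_, no_cycle rfl (by omega) (by omega), ?_⟩
  · intro u v h
    rcases u with i | j <;> rcases v with i' | j'
    · exact absurd h (gr_ll _ _)
    · simp
    · simp
    · exact absurd h (gr_rr _ _)
  · intro u v h hn
    rcases u with i | j <;> rcases v with i' | j'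
    · simp at h
    · exact saturated_pair hr hs h1 h2 i j' hn
    · rw [SimpleGraph.edge_comm]
      exact saturated_pair hr hs h1 h2 i' j hn
    · simp at h

theorem sat_le {r s n1 n2 : ℕ} (hr : 2 ≤ r) (hs : 2 ≤ s) (h1 : r + s ≤ n1)
    (h2 : r + s ≤ n2) :
    satNum (completeBipartiteGraph (Fin n1) (Fin n2)) (2 * (r + s)) ≤
      r * (r + s) + s * s + (n1 - (r + s)) + (n2 - (r + s)) := by
  have h : (gr r (r + s) n1 n2).edgeSet.ncard ∈
      {m | ∃ H : SimpleGraph (Fin n1 ⊕ Fin n2), IsCycleSaturated
        (completeBipartiteGraph (Fin n1) (Fin n2)) H (2 * (r + s)) ∧ H.edgeSet.ncard = m} :=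
    ⟨_, saturated hr hs h1 h2, rfl⟩
  exact (Nat.sInf_le h).trans (edges_le h1 h2 (by omega))

end Pool.Agent.Helper465CycSat
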